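import Pool.Agent.R925.ZC.Zero

/-!
# Zero-cycles of degree zero on almost all twists of a cyclic covering

Let `b y ^ 2 = ∏ k, G k (z, w)` be a hyperelliptic curve `D` over `ℚ`, where the `G k` are the
homogenisations of polynomials `g k` with integral coefficients, of even degrees, pairwise coprime.
Let `h` be a polynomial with integral coefficients, coprime to the `g k`, and `H` its homogenisation.
For a squarefree integer `a` and an even `m ∣ deg h` consider the curve

  `C a : b y ^ 2 = ∏ k, G k (z, w)`, `a x ^ m = H (z, w)`.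

It is a cyclic covering of degree `m` of `D`, and for different `a` these coverings are twists of each
other. The genus is arbitrary, and nothing is known about the Tate-Shafarevich groups of the Jacobians.

The functions `G k` have even divisors on `D`, so there are homomorphisms `z ↦ G k (z)` from the
zero-cycles of degree zero modulo rational equivalence on `C a` over a field `F` of characteristic zero
to `F* / F*²`: the value of a zero-cycle `∑ c i P i`, with points `P i` over finite extensions `E i` of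
`F`, is `∏ N (G k (P i)) ^ c i`. The quaternion algebras `(G k, e)`, `e` a nonzero integer, belong to the
Brauer group of `C a`.

We prove that for all squarefree `a`, `|a| ≤ X`, with at most `C X (log X) ^ (-κ)` exceptions, `κ > 0`,
and all `m`, the following holds for every adelic zero-cycle `(z_v)` of degree zero (or of even degree)
which is orthogonal to the classes `(G k, e)`:

* (general) there are squarefree integers `n k` with `G k (z_v) = n k` in `ℚ_v* / ℚ_v*²` for all `k` and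
  all places `v`, and the family `n` is persistent: `∏ n k` is a square, and for every automorphism
  `σ` of the field of algebraic numbers there is a `σ`-stable set of zeros `β` of `h`, of even
  cardinality, with `∏ β, g k (β) = n k * y k ^ 2`, `σ (y k) = y k`;
* if the zeros of `h` are one or two rational numbers `α₁`, `α₂` (with any multiplicities) and
  `b ∏ g k (α₁)` is a square (so that there are rational points over `α₁`), there is a zero-cycle `z` of
  degree zero on `C a` over `ℚ` with `G k (z) = G k (z_v)` in `ℚ_v* / ℚ_v*²` for all `k` and all `v`;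
* if `h` has at most two zeros `x₁`, `x₂`, rational or conjugate, and `∏ k, g k (x₁) g k (x₂)` is not a
  square in `ℚ`, then `G k (z_v) = 1` in `ℚ_v* / ℚ_v*²` for all `k` and all `v`;
* the same holds if the zeros of `h` are square roots of `A`, `B`, `A B`, where `A`, `B`, `A B` are
  rational and not squares, and the values of the `g k` at the zeros depend only on the squares of the
  zeros, for example for `g = (z ^ 2 + 51, z ^ 2 - 1)`, `h = (z ^ 2 + 1) (z ^ 2 - 17) (z ^ 2 + 17)`, `b = 1`,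
  when all the curves `C a` have points over the real numbers and over all the `p`-adic fields.

So for almost all `a` of these families the complex for zero-cycles of degree zero modulo 2 is exact up
to elements of the kernels of the maps `(G k)`, without assumptions on Tate-Shafarevich groups.
-/

set_option autoImplicit false
set_option linter.unusedSectionVars false

namespace Pool.Agent.Results.MP_f80667_ag.DegreeZeroComplexOfTwists

open Polynomial Pool.Agent.R925.FD Pool.Agent.R925.ZC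

/-- The conditions on the polynomials: nonzero, the `g k` of even degrees, pairwise coprime over `ℚ`
and coprime to `h`, which is not constant. -/
structure Admissible {K : Type} (b : ℤ) (g : K → ℤ[X]) (h : ℤ[X]) : Prop where
  b_ne : b ≠ 0
  g_ne : ∀ k, g k ≠ 0
  h_deg : 1 ≤ h.natDegree
  deg : ∀ k, 2 ∣ (g k).natDegree
  coprime : ∀ k l, k ≠ l →
    IsCoprime ((g k).map (Int.castRingHom ℚ)) ((g l).map (Int.castRingHom ℚ))
  coprime_h : ∀ k, IsCoprime (h.map (Int.castRingHom ℚ)) ((g k).map (Int.castRingHom ℚ))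

/-- The squarefree integers `a`, `|a| ≤ X`, with the property `P` are at most
`C * X * (log X) ^ (-κ)`, for some `κ > 0` and `C`, for all `X ≥ 3`. -/
def AlmostNone (P : ℤ → Prop) : Prop :=
  ∃ κ : ℝ, 0 < κ ∧ ∃ C : ℝ, ∀ X : ℕ, 3 ≤ X →
    ({a : ℤ | a.natAbs ≤ X ∧ Squarefree a ∧ P a}.ncard : ℝ) ≤ C * X * (Real.log X) ^ (-κ)

section

variable {K : Type} [Fintype K] [DecidableEq K] {m : ℕ} {b a : ℤ} {g : K → ℤ[X]} {h : ℤ[X]}

/-- The components of the adelic zero-cycle have even degree. -/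
def EvenDegree (Z : AdelicCycle m b a g h) : Prop :=
  Even Z.re.degree ∧ ∀ p, Even (Z.pa p).degree

/-- The adelic zero-cycle has the values of a persistent class. -/
def OfPersistentClass (Z : AdelicCycle m b a g h) : Prop :=
  ∃ n : K → ℤ, (∀ k, Squarefree (n k)) ∧ IsClassZ 0 b (fun k => (n k : ℚ)) ∧
    ZPersistent 0 g h (fun k => (n k : ℚ)) ∧
    (∀ k, IsSquare (cycVal Z.re k * (n k : ℝ))) ∧
    ∀ k (p : Nat.Primes), IsSquare (cycVal (Z.pa p) k * (n k : ℚ_[(p : ℕ)]))

/-- The values of the adelic zero-cycle are squares. -/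
def TrivialValues (Z : AdelicCycle m b a g h) : Prop :=
  (∀ k, IsSquare (cycVal Z.re k)) ∧ ∀ k (p : Nat.Primes), IsSquare (cycVal (Z.pa p) k)

lemma parity_of_even {Z : AdelicCycle m b a g h} (hZ : EvenDegree Z) : Z.Parity 0 :=
  ⟨⟨fun _ => Even.zero, fun _ => hZ.1⟩, fun p => ⟨fun _ => Even.zero, fun _ => hZ.2 p⟩⟩

lemma trivial_of {Z : AdelicCycle m b a g h} {n : K → ℤ} (hn : ∀ k, Squarefree (n k))
    (h1 : ∀ k, IsSquare (cycVal Z.re k * (n k : ℝ)))
    (h2 : ∀ k (p : Nat.Primes), IsSquare (cycVal (Z.pa p) k * (n k : ℚ_[(p : ℕ)])))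
    (h3 : ∀ k, IsSquare ((n k : ℚ))) : TrivialValues Z := by
  have h4 : ∀ k, IsSquare ((1 : ℚ) * (n k : ℚ)) := fun k => by rw [one_mul]; exact h3 k
  refine ⟨fun k => ?_, fun k p => ?_⟩
  · have h5 := same_aux (hn k).ne_zero (h1 k) (h4 k)
    rwa [Rat.cast_one, mul_one] at h5
  · have h5 := same_aux (hn k).ne_zero (h2 k p) (h4 k)
    rwa [Rat.cast_one, mul_one] at h5

end

/-- a bound for a smaller set -/
lemma AlmostNone.mono {P Q : ℤ → Prop} (hQ : AlmostNone Q) (h : ∀ a, Squarefree a → P a → Q a) :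
    AlmostNone P := by
  obtain ⟨κ, hκ, C, hC⟩ := hQ
  refine ⟨κ, hκ, C, fun X hX => le_trans ?_ (hC X hX)⟩
  refine Nat.cast_le.2 (Set.ncard_le_ncard ?_ ?_)
  · rintro a ⟨h1, h2, h3⟩
    exact ⟨h1, h2, h a h2 h3⟩
  · apply (Set.finite_Icc (-(X : ℤ)) X).subset
    intro d hd
    have h1 : d.natAbs ≤ X := hd.1
    rw [Set.mem_Icc]
    omega

/-- **Zero-cycles of degree zero on twisted coverings.** -/
theorem result :
    (∀ (K : Type) [Fintype K] [DecidableEq K] (b : ℤ) (g : K → ℤ[X]) (h : ℤ[X]), Admissible b g h →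
      AlmostNone (fun a => ∃ m, 0 < m ∧ Even m ∧ m ∣ h.natDegree ∧
        ∃ Z : AdelicCycle m b a g h, EvenDegree Z ∧ Z.Orthogonal ∧ ¬ OfPersistentClass Z) ∧
      (∀ α₁ α₂ : ℚ, (∀ β : AlgebraicClosure ℚ, aeval β h = 0 ↔ β = α₁ ∨ β = α₂) →
        IsSquare ((b : ℚ) * ∏ k, aeval α₁ (g k)) →
        AlmostNone (fun a => ∃ m, 0 < m ∧ Even m ∧ m ∣ h.natDegree ∧
          ∃ Z : AdelicCycle m b a g h, EvenDegree Z ∧ Z.Orthogonal ∧
            ¬ ∃ z : Cycle m b a g h ℚ, z.degree = 0 ∧ SameValues Z z)) ∧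
      (∀ (x₁ x₂ : AlgebraicClosure ℚ) (N : K → ℚ),
        (∀ β : AlgebraicClosure ℚ, aeval β h = 0 → β = x₁ ∨ β = x₂) →
        (∀ k, aeval x₁ (g k) * aeval x₂ (g k) = (N k : AlgebraicClosure ℚ)) →
        (∀ k, N k ≠ 0) → ¬ IsSquare (∏ k, N k) →
        AlmostNone (fun a => ∃ m, 0 < m ∧ Even m ∧ m ∣ h.natDegree ∧
          ∃ Z : AdelicCycle m b a g h, EvenDegree Z ∧ Z.Orthogonal ∧ ¬ TrivialValues Z)) ∧
      (∀ (A B : ℚ) (v₁ v₂ v₃ : K → ℚ), ¬ IsSquare A → ¬ IsSquare B → ¬ IsSquare (A * B) →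
        (∀ β : AlgebraicClosure ℚ, aeval β h = 0 → β ^ 2 = (A : AlgebraicClosure ℚ) ∨
          β ^ 2 = (B : AlgebraicClosure ℚ) ∨ β ^ 2 = ((A * B : ℚ) : AlgebraicClosure ℚ)) →
        (∀ k, v₁ k ≠ 0) → (∀ k, v₂ k ≠ 0) → (∀ k, v₃ k ≠ 0) →
        (∀ k β, β ^ 2 = (A : AlgebraicClosure ℚ) → aeval β (g k) = (v₁ k : AlgebraicClosure ℚ)) →
        (∀ k β, β ^ 2 = (B : AlgebraicClosure ℚ) → aeval β (g k) = (v₂ k : AlgebraicClosure ℚ)) →
        (∀ k β, β ^ 2 = ((A * B : ℚ) : AlgebraicClosure ℚ) →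
          aeval β (g k) = (v₃ k : AlgebraicClosure ℚ)) →
        AlmostNone (fun a => ∃ m, 0 < m ∧ Even m ∧ m ∣ h.natDegree ∧
          ∃ Z : AdelicCycle m b a g h, EvenDegree Z ∧ Z.Orthogonal ∧ ¬ TrivialValues Z)) ∧
      ∀ (m : ℕ) (a : ℤ) (Z : AdelicCycle m b a g h) (k : K) (e : ℤ), e ≠ 0 →
        (Pool.Agent.W313.BMX.ram (Z.values k) e).Finite) ∧
    AlmostNone (fun a => ∃ m, 0 < m ∧ Even m ∧ m ∣ 6 ∧
      ∃ Z : AdelicCycle m 1 a exg exh, EvenDegree Z ∧ Z.Orthogonal ∧ ¬ TrivialValues Z) ∧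
    ∀ (m : ℕ) (a : ℤ), m ≠ 0 → Nonempty (Point m 1 a exg exh ℝ) ∧
      ∀ (p : ℕ) [Fact p.Prime], Nonempty (Point m 1 a exg exh ℚ_[p]) := by
  have hthree : ∀ (K : Type) [Fintype K] [DecidableEq K] (b : ℤ) (g : K → ℤ[X]) (h : ℤ[X]),
      Admissible b g h → ∀ (A B : ℚ) (v₁ v₂ v₃ : K → ℚ), ¬ IsSquare A → ¬ IsSquare B →
        ¬ IsSquare (A * B) →
        (∀ β : AlgebraicClosure ℚ, aeval β h = 0 → β ^ 2 = (A : AlgebraicClosure ℚ) ∨
          β ^ 2 = (B : AlgebraicClosure ℚ) ∨ β ^ 2 = ((A * B : ℚ) : AlgebraicClosure ℚ)) →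
        (∀ k, v₁ k ≠ 0) → (∀ k, v₂ k ≠ 0) → (∀ k, v₃ k ≠ 0) →
        (∀ k β, β ^ 2 = (A : AlgebraicClosure ℚ) → aeval β (g k) = (v₁ k : AlgebraicClosure ℚ)) →
        (∀ k β, β ^ 2 = (B : AlgebraicClosure ℚ) → aeval β (g k) = (v₂ k : AlgebraicClosure ℚ)) →
        (∀ k β, β ^ 2 = ((A * B : ℚ) : AlgebraicClosure ℚ) →
          aeval β (g k) = (v₃ k : AlgebraicClosure ℚ)) →
        AlmostNone (fun a => ∃ m, 0 < m ∧ Even m ∧ m ∣ h.natDegree ∧
          ∃ Z : AdelicCycle m b a g h, EvenDegree Z ∧ Z.Orthogonal ∧ ¬ TrivialValues Z) := by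
    intro K _ _ b g h hA A B v₁ v₂ v₃ hA1 hB hAB hz hv₁ hv₂ hv₃ h1 h2 h3
    exact AlmostNone.mono (zc_main hA.b_ne hA.g_ne hA.h_deg hA.deg hA.coprime hA.coprime_h)
      fun a _ ⟨m, _, hm, hmh, Z, h4, h5, h6⟩ => ⟨m, hm, hmh, 0, Z, parity_of_even h4, h5,
        fun ⟨n, hn1, hn2, hn3, hn4, hn5⟩ => h6 (trivial_of hn1 hn4 hn5
          (trivial_three g h A B hA1 hB hAB hz v₁ v₂ v₃ hv₁ hv₂ hv₃ h1 h2 h3 Even.zero _ hn2.1
            hn3))⟩
  refine ⟨fun K _ _ b g h hA => ⟨?_, fun α₁ α₂ hz hu => ?_, fun x₁ x₂ N hz hN hN0 hsq => ?_,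
    fun A B v₁ v₂ v₃ => hthree K b g h hA A B v₁ v₂ v₃, fun m a Z k e he => ?_⟩, ?_,
    fun m a hm => ⟨?_, ?_⟩⟩
  · exact AlmostNone.mono (zc_main hA.b_ne hA.g_ne hA.h_deg hA.deg hA.coprime hA.coprime_h)
      fun a _ ⟨m, _, hm, hmh, Z, h1, h2, h3⟩ => ⟨m, hm, hmh, 0, Z, parity_of_even h1, h2, h3⟩
  · exact AlmostNone.mono (two_zeros hA.b_ne hA.g_ne hA.h_deg hA.deg hA.coprime hA.coprime_h hz)
      fun a _ ⟨m, hm0, hm, hmh, Z, h1, h2, h3⟩ => ⟨m, hm0, hm, hmh, 0, Z, parity_of_even h1, h2,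
        Or.inr hu, h3⟩
  · exact AlmostNone.mono (zc_main hA.b_ne hA.g_ne hA.h_deg hA.deg hA.coprime hA.coprime_h)
      fun a _ ⟨m, _, hm, hmh, Z, h4, h5, h6⟩ => ⟨m, hm, hmh, 0, Z, parity_of_even h4, h5,
        fun ⟨n, hn1, hn2, hn3, hn4, hn5⟩ => h6 (trivial_of hn1 hn4 hn5
          (trivial_two hA.b_ne g h x₁ x₂ hz N hN hN0 hsq Even.zero _ hn2 hn3))⟩
  · exact ram_finite hA.b_ne hA.g_ne (by
      rintro rfl
      have := hA.h_deg
      rw [natDegree_zero] at this
      omega) hA.deg hA.coprime hA.coprime_h Z k e he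
  · have hA : Admissible 1 exg exh := ⟨one_ne_zero, exg_ne, by rw [exh_deg]; norm_num,
      fun k => by rw [exg_deg], exg_coprime, exgh_coprime⟩
    have h17 : ¬ IsSquare (17 : ℚ) := by
      rw [show (17 : ℚ) = ((17 : ℕ) : ℚ) from rfl, Rat.isSquare_natCast_iff]
      exact (by norm_num : Nat.Prime 17).prime.not_isSquare
    have h1 : ∀ β : AlgebraicClosure ℚ, aeval β (exg 1) = β ^ 2 - 1 := by
      intro β
      change aeval β (X ^ 2 - 1 : ℤ[X]) = _
      simp
    have h2 := hthree (Fin 2) 1 exg exh hA (-1) 17 ![50, -2] ![68, 16] ![34, -18]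
      (nonsq_of_neg (by norm_num)) h17 (nonsq_of_neg (by norm_num)) (by
        intro β hβ
        rcases aeval_exh β hβ with h | h | h
        · left; rw [h]; push_cast; rfl
        · right; left; rw [h]; push_cast; rfl
        · right; right; rw [h]; push_cast; norm_num)
      (by intro k; fin_cases k <;> norm_num) (by intro k; fin_cases k <;> norm_num)
      (by intro k; fin_cases k <;> norm_num)
      (by
        intro k β hβ
        fin_cases k
        · change aeval β (exg 0) = ((50 : ℚ) : AlgebraicClosure ℚ)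
          rw [aeval_exg0, hβ]; push_cast; norm_num
        · change aeval β (exg 1) = ((-2 : ℚ) : AlgebraicClosure ℚ)
          rw [h1, hβ]; push_cast; norm_num)
      (by
        intro k β hβ
        fin_cases k
        · change aeval β (exg 0) = ((68 : ℚ) : AlgebraicClosure ℚ)
          rw [aeval_exg0, hβ]; push_cast; norm_num
        · change aeval β (exg 1) = ((16 : ℚ) : AlgebraicClosure ℚ)
          rw [h1, hβ]; push_cast; norm_num)
      (by
        intro k β hβ
        fin_cases k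
        · change aeval β (exg 0) = ((34 : ℚ) : AlgebraicClosure ℚ)
          rw [aeval_exg0, hβ]; push_cast; norm_num
        · change aeval β (exg 1) = ((-18 : ℚ) : AlgebraicClosure ℚ)
          rw [h1, hβ]; push_cast; norm_num)
    rw [exh_deg] at h2
    exact h2
  · obtain ⟨z, w, x, y, h1, h2, h3⟩ := ex_real m hm a
    exact ⟨⟨z, w, x, y, h1, h2, h3⟩⟩
  · intro p hp
    obtain ⟨z, w, x, y, h1, h2, h3⟩ := ex_padic m hm a p
    exact ⟨⟨z, w, x, y, h1, h2, h3⟩⟩

end Pool.Agent.Results.MP_f80667_ag.DegreeZeroComplexOfTwists
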