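import Pool.Agent.R333.Sel.Div

/-!
# Divisible elements of Tate-Shafarevich groups: subfields with cyclic subgroups

`K` is a field (a number field in the application), `Ω` its separable closure, `L` a finite extension
of `K` in `Ω` and `A` a discrete `Gal(Ω/K)`-module (the points of the Jacobian of a curve over `K`).
The group `Ш(A/F)` has no nonzero divisible subgroup for all intermediate fields `F` of `L / K`, if
and only if this is so for those `F` for which every subgroup of `Aut(F/K)` whose order is a product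
of two primes is cyclic.
-/

set_option autoImplicit false

namespace Pool.Agent.Results.MP_f80667_ag.DivisiblePart

open Pool.Agent.R333.Sel (Sel resAct)

/-- The Tate-Shafarevich group of the `Gal(Ω/F)`-module `A`: the classes in `H¹(F, A)` that are
trivial on the decomposition groups of all nontrivial absolute values of `Ω`. -/
abbrev Sha {F Ω A : Type} [Field F] [Field Ω] [Algebra F Ω] [AddCommGroup A]
    (ρ : Gal(Ω/F) →* AddMonoid.End A) : Type :=
  Sel ρ (⊤ : AddSubgroup A)

/-- The group `S` has no nonzero divisible subgroup. -/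
def NoDivisibleSubgroup (S : Type) [AddCommGroup S] : Prop :=
  ∀ D : AddSubgroup S, (∀ n : ℕ, n ≠ 0 → ∀ x ∈ D, ∃ y ∈ D, n • y = x) → D = ⊥

/-- Every subgroup of `G` whose order is a product of two primes is cyclic. -/
def CyclicSubgroups (G : Type) [Group G] : Prop :=
  ∀ (H : Subgroup G) (q r : ℕ), q.Prime → r.Prime → Nat.card H = q * r → IsCyclic H

/-- `Ш(A/F)` has no nonzero divisible subgroup. -/
def ShaNoDivisible {K Ω A : Type} [Field K] [Field Ω] [Algebra K Ω] [AddCommGroup A]
    (ρ : Gal(Ω/K) →* AddMonoid.End A) (F : Type) [Field F] [Algebra K F] [Algebra F Ω]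
    [IsScalarTower K F Ω] : Prop :=
  NoDivisibleSubgroup (Sha (resAct ρ F))

/-- The `Gal(Ω/K)`-module `A` is discrete: every element is fixed by the automorphisms that fix the
elements of some finite subset of `Ω`. -/
def IsDiscrete {K Ω A : Type} [Field K] [Field Ω] [Algebra K Ω] [AddCommGroup A]
    (ρ : Gal(Ω/K) →* AddMonoid.End A) : Prop :=
  ∀ P : A, ∃ s : Finset Ω, ∀ σ : Gal(Ω/K), (∀ x ∈ s, σ x = x) → ρ σ P = P

section Aux

open Pool.Agent.R333.Sel

/-- the Galois case -/
theorem galois_case {K F Ω A : Type} [Field K] [Field F] [Field Ω] [Algebra K F] [Algebra K Ω]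
    [Algebra F Ω] [IsScalarTower K F Ω] [FiniteDimensional K F] [IsGalois K F] [Normal K Ω]
    [AddCommGroup A] (ρ : Gal(Ω/K) →* AddMonoid.End A)
    (hρ : ∀ P : A, ∃ s : Finset Ω, ∀ σ : Gal(Ω/K), (∀ x ∈ s, σ x = x) → ρ σ P = P)
    (hG : ∀ g : Gal(F/K), g ≠ 1 → (orderOf g).Prime) (hc : ¬ IsCyclic Gal(F/K))
    (h : ∀ H : Subgroup Gal(F/K), H ≠ ⊥ →
      NoDiv (Sel (resAct ρ (IntermediateField.fixedField H)) (⊤ : AddSubgroup A))) :
    NoDiv (Sel (resAct ρ F) (⊤ : AddSubgroup A)) := by
  have hsurj : Function.Surjective (AlgEquiv.restrictNormalHom F : Gal(Ω/K) → Gal(F/K)) :=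
    AlgEquiv.restrictNormalHom_surjective Ω
  choose s hs using hsurj
  have hT : ∀ σ : Gal(Ω/K), ∀ x ∈ (⊤ : AddSubgroup A), ρ σ x ∈ (⊤ : AddSubgroup A) :=
    fun _ _ _ => AddSubgroup.mem_top _
  have h1 := noDiv_ker (sdat ρ ⊤ hT hρ) (AlgEquiv.restrictNormalHom F) s hs (ker_open ρ ⊤ hT hρ) hG
    hc (fun H hH => by
      have h2 := noDiv_congr (selEquiv ρ ⊤ hT hρ (IntermediateField.fixedField H)) (h H hH)
      rw [jr_eq, IntermediateField.fixingSubgroup_fixedField] at h2
      exact h2)
  rw [← jr_top] at h1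
  exact noDiv_congr (selEquiv ρ ⊤ hT hρ F).symm h1

theorem one_step {K Ω A : Type} [Field K] [Field Ω] [Algebra K Ω] [Normal K Ω] [AddCommGroup A]
    (ρ : Gal(Ω/K) →* AddMonoid.End A)
    (hρ : ∀ P : A, ∃ s : Finset Ω, ∀ σ : Gal(Ω/K), (∀ x ∈ s, σ x = x) → ρ σ P = P)
    (F : Type) [Field F] [Algebra K F] [Algebra F Ω] [IsScalarTower K F Ω] [FiniteDimensional K F]
    (hcyc : ¬ CyclicSubgroups Gal(F/K))
    (h : ∀ M : IntermediateField K F, Module.finrank K M < Module.finrank K F →
      NoDiv (Sel (resAct ρ M) (⊤ : AddSubgroup A))) :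
    NoDiv (Sel (resAct ρ F) (⊤ : AddSubgroup A)) := by
  unfold CyclicSubgroups at hcyc
  push Not at hcyc
  obtain ⟨H0, q, r, hq, hr, hcard, hncyc⟩ := hcyc
  let K' : IntermediateField K F := IntermediateField.fixedField H0
  have e1 : H0 ≃* Gal(F/K') := IntermediateField.subgroupEquivAlgEquiv H0
  have hfr : Module.finrank K' F = Nat.card H0 := IntermediateField.finrank_fixedField_eq_card H0
  have hgal : IsGalois K' F := IsGalois.of_card_aut_eq_finrank K' F (by
    rw [hfr, ← Nat.card_congr e1.toEquiv])
  have hcard' : Nat.card Gal(F/K') = q * r := by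
    rw [← Nat.card_congr e1.toEquiv, hcard]
  have hc' : ¬ IsCyclic Gal(F/K') := fun hc => hncyc
    (isCyclic_of_surjective e1.symm.toMonoidHom e1.symm.surjective)
  have htow : IsScalarTower K K' Ω := IsScalarTower.of_algebraMap_eq fun x => by
    change algebraMap K Ω x = algebraMap F Ω (algebraMap K F x)
    rw [← IsScalarTower.algebraMap_apply]
  have hnorm : Normal K' Ω := Normal.tower_top_of_normal K K' Ω
  have hρ' : ∀ P : A, ∃ s : Finset Ω, ∀ σ : Gal(Ω/K'), (∀ x ∈ s, σ x = x) →
      resAct ρ K' σ P = P := by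
    intro P
    obtain ⟨s, hs⟩ := hρ P
    exact ⟨s, fun σ hσ => hs (AlgEquiv.restrictScalarsHom K σ) hσ⟩
  refine galois_case (K := K') (resAct ρ K') hρ' (prime_orders hq hr hcard' hc') hc' fun H hH => ?_
  set E' : IntermediateField K' F := IntermediateField.fixedField H with hE'
  have hE'fr : Module.finrank E' F = Nat.card H := IntermediateField.finrank_fixedField_eq_card H
  have htow2 : IsScalarTower K (E'.restrictScalars K) Ω :=
    IsScalarTower.of_algebraMap_eq fun x => by
      change algebraMap K Ω x = algebraMap F Ω (algebraMap K F x)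
      rw [← IsScalarTower.algebraMap_apply]
  have hlt : Module.finrank K (E'.restrictScalars K) < Module.finrank K F := by
    have h1 := Module.finrank_mul_finrank K (E'.restrictScalars K) F
    have h2 : Module.finrank (E'.restrictScalars K) F = Nat.card H := hE'fr
    have h3 : 1 < Nat.card H := by
      rw [Subgroup.one_lt_card_iff_ne_bot]
      exact hH
    rw [h2] at h1
    have h4 : 0 < Module.finrank K (E'.restrictScalars K) := Module.finrank_pos
    rw [← h1]
    exact (Nat.lt_mul_iff_one_lt_right h4).2 h3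
  exact h (E'.restrictScalars K) hlt

variable {K L Ω A : Type} [Field K] [Field L] [Field Ω] [Algebra K L] [Algebra L Ω] [Algebra K Ω]
  [IsScalarTower K L Ω]

theorem jr_lift (F : IntermediateField K L) (M : IntermediateField K F) :
    jr (K := K) (Ω := Ω) (IntermediateField.lift M) = jr (K := K) (Ω := Ω) M := by
  ext σ
  rw [mem_jr, mem_jr]
  constructor
  · intro h x
    exact h ⟨x.1.1, (IntermediateField.mem_lift x.1).2 x.2⟩
  · intro h x
    exact h ⟨⟨x.1, IntermediateField.lift_le M x.2⟩, (IntermediateField.mem_lift _).1 x.2⟩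

theorem local_step [Normal K Ω] [FiniteDimensional K L] [AddCommGroup A]
    (ρ : Gal(Ω/K) →* AddMonoid.End A)
    (hρ : ∀ P : A, ∃ s : Finset Ω, ∀ σ : Gal(Ω/K), (∀ x ∈ s, σ x = x) → ρ σ P = P)
    (h : ∀ F : IntermediateField K L, CyclicSubgroups Gal(F/K) →
      NoDiv (Sel (resAct ρ F) (⊤ : AddSubgroup A))) (n : ℕ) :
    ∀ F : IntermediateField K L, Module.finrank K F = n →
      NoDiv (Sel (resAct ρ F) (⊤ : AddSubgroup A)) := by
  induction n using Nat.strong_induction_on with
  | _ n ih =>
    intro F hn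
    by_cases hcyc : CyclicSubgroups Gal(F/K)
    · exact h F hcyc
    · refine one_step ρ hρ F hcyc fun M hM => ?_
      have h1 : Module.finrank K (IntermediateField.lift M) = Module.finrank K M :=
        (IntermediateField.liftAlgEquiv M).toLinearEquiv.finrank_eq.symm
      have h2 := ih (Module.finrank K (IntermediateField.lift M)) (by rw [h1, ← hn]; exact hM)
        (IntermediateField.lift M) rfl
      have hT : ∀ σ : Gal(Ω/K), ∀ x ∈ (⊤ : AddSubgroup A), ρ σ x ∈ (⊤ : AddSubgroup A) :=
        fun _ _ _ => AddSubgroup.mem_top _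
      have h3 := noDiv_congr (selEquiv ρ ⊤ hT hρ (IntermediateField.lift M)) h2
      rw [jr_lift] at h3
      exact noDiv_congr (selEquiv ρ ⊤ hT hρ M).symm h3

end Aux

/-- **Reduction to subfields whose automorphism groups have cyclic subgroups.** Let `K` be a field,
`Ω` a separable closure of `K`, `L` a finite extension of `K` in `Ω` and `A` a discrete
`Gal(Ω/K)`-module. For all intermediate fields `F` of `L / K` the group `Ш(A/F)` has no nonzero
divisible subgroup, if and only if this is so for those `F` for which every subgroup of `Aut(F/K)`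
whose order is a product of two primes is cyclic. -/
theorem result (K L Ω A : Type) [Field K] [Field L] [Field Ω] [Algebra K L] [Algebra L Ω]
    [Algebra K Ω] [IsScalarTower K L Ω] [IsSepClosure K Ω] [FiniteDimensional K L]
    [AddCommGroup A] (ρ : Gal(Ω/K) →* AddMonoid.End A) (hρ : IsDiscrete ρ) :
    (∀ F : IntermediateField K L, ShaNoDivisible ρ F) ↔
      ∀ F : IntermediateField K L, CyclicSubgroups Gal(F/K) → ShaNoDivisible ρ F := by
  have : IsGalois K Ω := IsSepClosure.isGalois
  refine ⟨fun h F _ => h F, fun h F => ?_⟩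
  exact local_step ρ hρ (fun F hF => h F hF) _ F rfl

end Pool.Agent.Results.MP_f80667_ag.DivisiblePart
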