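import Mathlib

/-!
# MP_f80667_ag: the Brauer-Manin complex for zero-cycles on products

Let `X_i`, `i ∈ I`, be smooth projective geometrically connected varieties over a number field `F`, each
with a rational point `o_i` (or a zero-cycle of degree `1`), and for a finite set `S` of indices let `X_S`
be the product of the `X_i`, `i ∈ S`. For two sets `S`, `T` there is the map `X_S → X_T` which keeps the
coordinates in `S ∩ T` and whose other coordinates are the points `o_i`. The composition of `X_S → X_T`
and `X_T → X_U` keeps the coordinates in `S ∩ T ∩ U` only, i.e. it is the composition of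
`X_S → X_{S ∩ T ∩ U}` and `X_{S ∩ T ∩ U} → X_U`.
-/

set_option autoImplicit false

universe u v w

namespace Pool.Agent.Results.MP_f80667_ag.ProductsReduceToPairs

variable {ι : Type} [DecidableEq ι]

/-- A covariant functor with values in abelian groups on the varieties `X_S` and the maps
`X_S → X_T`. -/
structure Covariant (ι : Type) [DecidableEq ι] where
  G : Finset ι → Type u
  [addCommGroup : ∀ S, AddCommGroup (G S)]
  /-- push-forward along `X_S → X_T` -/
  map : ∀ S T : Finset ι, G S →+ G T
  map_self : ∀ (S : Finset ι) (x : G S), map S S x = x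
  map_map : ∀ (S T U : Finset ι) (x : G S),
    map T U (map S T x) = map (S ∩ T ∩ U) U (map S (S ∩ T ∩ U) x)

/-- A contravariant functor with values in abelian groups on the varieties `X_S` and the maps
`X_S → X_T`. -/
structure Contravariant (ι : Type) [DecidableEq ι] where
  G : Finset ι → Type u
  [addCommGroup : ∀ S, AddCommGroup (G S)]
  /-- pullback along `X_S → X_T` -/
  pull : ∀ S T : Finset ι, G T →+ G S
  pull_self : ∀ (S : Finset ι) (x : G S), pull S S x = x
  pull_pull : ∀ (S T U : Finset ι) (x : G U),
    pull S T (pull T U x) = pull S (S ∩ T ∩ U) (pull (S ∩ T ∩ U) U x)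

attribute [instance] Covariant.addCommGroup Contravariant.addCommGroup

/-- `x` vanishes under the maps `X_T → X_{T ∖ {i}}`, `i ∈ T`: it belongs to the new part of `G T`. -/
def Covariant.New (C : Covariant.{u} ι) (T : Finset ι) (x : C.G T) : Prop :=
  ∀ i ∈ T, C.map T (T.erase i) x = 0

/-- The group `ℚ / ℤ`. -/
def QZ : Type := AddCircle (1 : ℚ)

instance : AddCommGroup QZ := inferInstanceAs (AddCommGroup (AddCircle (1 : ℚ)))

/-- A natural transformation. -/
structure Natural (A : Covariant.{u} ι) (B : Covariant.{v} ι) where
  hom : ∀ S : Finset ι, A.G S →+ B.G S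
  hom_map : ∀ (S T : Finset ι) (x : A.G S), hom T (A.map S T x) = B.map S T (hom S x)

/-- A pairing with values in `ℚ / ℤ` which satisfies the projection formula. -/
structure Pairing (B : Covariant.{v} ι) (C : Contravariant.{w} ι) where
  val : ∀ S : Finset ι, B.G S → C.G S → QZ
  add_left : ∀ (S : Finset ι) (y y' : B.G S) (α : C.G S), val S (y + y') α = val S y α + val S y' α
  add_right : ∀ (S : Finset ι) (y : B.G S) (α α' : C.G S), val S y (α + α') = val S y α + val S y α'
  projection : ∀ (S T : Finset ι) (y : B.G S) (α : C.G T),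
    val T (B.map S T y) α = val S y (C.pull S T α)

/-- The theorem of the cube for the Brauer group: a class on a product of at least three varieties which
is trivial on all the subvarieties where one coordinate is `o_i` is trivial. -/
def Contravariant.Cube (C : Contravariant.{w} ι) : Prop :=
  ∀ T : Finset ι, 3 ≤ T.card → ∀ α : C.G T, (∀ i ∈ T, C.pull (T.erase i) T α = 0) → α = 0

/-- The Brauer-Manin complexes for zero-cycles of degree zero of the products `X_S`. -/
structure BrauerManin (ι : Type) [DecidableEq ι] where
  /-- the completion of `F^1(X_S)`, the zero-cycles of degree `0` on `X_S` modulo rational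
  equivalence -/
  A : Covariant.{u} ι
  /-- the completion of `F^1_𝐀(X_S)`, the product of the corresponding local groups -/
  B : Covariant.{v} ι
  /-- the Brauer group `Br(X_S) / Br_0(X_S)` -/
  Br : Contravariant.{w} ι
  /-- the diagonal map `Δ` -/
  Δ : Natural A B
  /-- the sum of the local pairings -/
  pairing : Pairing B Br
  /-- global reciprocity -/
  reciprocity : ∀ (S : Finset ι) (x : A.G S) (α : Br.G S), pairing.val S (Δ.hom S x) α = 0
  /-- the theorem of the cube -/
  cube : Br.Cube

/-- The Brauer-Manin complex of `X_T` is exact. -/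
def BrauerManin.Exact (M : BrauerManin.{u, v, w} ι) (T : Finset ι) : Prop :=
  ∀ y : M.B.G T, (∀ α, M.pairing.val T y α = 0) → ∃ x : M.A.G T, M.Δ.hom T x = y

/-- Strong approximation for the new part: each element of the new part of the adelic group of `X_T` is
the image of an element of the new part of the global group. -/
def BrauerManin.NewSurjective (M : BrauerManin.{u, v, w} ι) (T : Finset ι) : Prop :=
  ∀ y : M.B.G T, M.B.New T y → ∃ x : M.A.G T, M.A.New T x ∧ M.Δ.hom T x = y

theorem Pairing.zero_left {B : Covariant.{v} ι} {C : Contravariant.{w} ι} (P : Pairing B C)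
    (S : Finset ι) (α : C.G S) : P.val S 0 α = 0 := by
  have h := P.add_left S 0 0 α
  rw [add_zero] at h
  exact left_eq_add.1 h

theorem Pairing.sub_left {B : Covariant.{v} ι} {C : Contravariant.{w} ι} (P : Pairing B C)
    (S : Finset ι) (y y' : B.G S) (α : C.G S) : P.val S (y - y') α = P.val S y α - P.val S y' α := by
  have h := P.add_left S (y - y') y' α
  rw [sub_add_cancel] at h
  rw [h, add_sub_cancel_right]

/-- the homomorphism `Br → ℚ / ℤ` given by an element -/
def Pairing.right {B : Covariant.{v} ι} {C : Contravariant.{w} ι} (P : Pairing B C)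
    (S : Finset ι) (y : B.G S) : C.G S →+ QZ :=
  AddMonoidHom.mk' (P.val S y) (P.add_right S y)

section Covariant

variable (C : Covariant.{u} ι)

theorem Covariant.retract {S T : Finset ι} (h : T ⊆ S) (x : C.G T) :
    C.map S T (C.map T S x) = x := by
  have e : T ∩ S ∩ T = T := by
    ext a; simp only [Finset.mem_inter]; constructor
    · exact fun h => h.2
    · exact fun ha => ⟨⟨ha, h ha⟩, ha⟩
  rw [C.map_map, e, C.map_self, C.map_self]

theorem Covariant.comp {S T U : Finset ι} (h : S ∩ T ∩ U = S ∩ U) (x : C.G S) :
    C.map T U (C.map S T x) = C.map S U x := by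
  have e : S ∩ S ∩ U = S ∩ U := by rw [Finset.inter_self]
  have h1 := C.map_map S S U x
  rw [C.map_self, e] at h1
  rw [C.map_map, h, h1]

/-- the projector `e_i` -/
def Covariant.proj (T : Finset ι) (i : ι) : C.G T →+ C.G T :=
  (C.map (T.erase i) T).comp (C.map T (T.erase i))

theorem Covariant.erase_proj_self (T : Finset ι) (i : ι) (x : C.G T) :
    C.map T (T.erase i) (C.proj T i x) = C.map T (T.erase i) x :=
  C.retract (Finset.erase_subset i T) _

theorem Covariant.erase_proj (T : Finset ι) (i j : ι) (x : C.G T)
    (hx : C.map T (T.erase j) x = 0) : C.map T (T.erase j) (C.proj T i x) = 0 := by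
  have h1 : C.map T (T.erase j) (C.map (T.erase i) T (C.map T (T.erase i) x)) =
      C.map (T.erase i ∩ T.erase j) (T.erase j)
        (C.map (T.erase i) (T.erase i ∩ T.erase j) (C.map T (T.erase i) x)) := by
    have e : T.erase i ∩ T ∩ T.erase j = T.erase i ∩ T.erase j := by
      ext a; simp only [Finset.mem_inter, Finset.mem_erase]; tauto
    rw [C.map_map (T.erase i) T (T.erase j), e]
  have h2 : C.map (T.erase i) (T.erase i ∩ T.erase j) (C.map T (T.erase i) x) =
      C.map (T.erase j) (T.erase i ∩ T.erase j) (C.map T (T.erase j) x) := by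
    rw [C.comp, C.comp]
    · ext a; simp only [Finset.mem_inter, Finset.mem_erase]; tauto
    · ext a; simp only [Finset.mem_inter, Finset.mem_erase]; tauto
  change C.map T (T.erase j) (C.map (T.erase i) T (C.map T (T.erase i) x)) = 0
  rw [h1, h2, hx, map_zero, map_zero]

/-- Splitting off the new part: if `P` is a property of elements which is preserved by
`x ↦ x - e_i x`, then each `x` with `P` can be replaced by an element of the new part. -/
theorem Covariant.split (T : Finset ι) (P : C.G T → Prop)
    (hP : ∀ i ∈ T, ∀ x, P x → P (x - C.proj T i x)) (x : C.G T) (hx : P x) :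
    ∃ x', P x' ∧ C.New T x' := by
  have key : ∀ K : Finset ι, K ⊆ T → ∃ x', P x' ∧ ∀ i ∈ K, C.map T (T.erase i) x' = 0 := by
    intro K
    induction K using Finset.induction_on with
    | empty => exact fun _ => ⟨x, hx, fun i hi => absurd hi (Finset.notMem_empty i)⟩
    | insert i K _ ih =>
      intro hK
      obtain ⟨x', h1, h2⟩ := ih fun a ha => hK (Finset.mem_insert_of_mem ha)
      refine ⟨x' - C.proj T i x', hP i (hK (Finset.mem_insert_self i K)) x' h1, fun j hj => ?_⟩
      rcases Finset.mem_insert.1 hj with rfl | hj
      · rw [map_sub, C.erase_proj_self, sub_self]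
      · rw [map_sub, C.erase_proj T i j x' (h2 j hj), h2 j hj, sub_self]
  exact key T fun _ h => h

end Covariant

section Contravariant

variable (C : Contravariant.{u} ι)

theorem Contravariant.retract {S T : Finset ι} (h : T ⊆ S) (x : C.G T) :
    C.pull T S (C.pull S T x) = x := by
  have e : T ∩ S ∩ T = T := by
    ext a; simp only [Finset.mem_inter]; constructor
    · exact fun h => h.2
    · exact fun ha => ⟨⟨ha, h ha⟩, ha⟩
  rw [C.pull_pull, e, C.pull_self, C.pull_self]

theorem Contravariant.comp {S T U : Finset ι} (h : S ∩ T ∩ U = S ∩ U) (x : C.G U) :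
    C.pull S T (C.pull T U x) = C.pull S U x := by
  have e : S ∩ U ∩ U = S ∩ U := by rw [Finset.inter_assoc, Finset.inter_self]
  have h1 := C.pull_pull S U U x
  rw [C.pull_self, e] at h1
  rw [C.pull_pull, h, h1]

/-- An element of the dual which vanishes on the classes coming from the faces vanishes, if the only
class which is trivial on all the faces is `0`. -/
theorem Contravariant.dual_new (T : Finset ι)
    (hT : ∀ α : C.G T, (∀ i ∈ T, C.pull (T.erase i) T α = 0) → α = 0)
    (f : C.G T →+ QZ) (hf : ∀ i ∈ T, ∀ a, f (C.pull T (T.erase i) a) = 0)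
    (α : C.G T) : f α = 0 := by
  have key : ∀ K : Finset ι, K ⊆ T → ∃ β : C.G T, f β = f α ∧
      ∀ i ∈ K, C.pull (T.erase i) T β = 0 := by
    intro K
    induction K using Finset.induction_on with
    | empty => exact fun _ => ⟨α, rfl, fun i hi => absurd hi (Finset.notMem_empty i)⟩
    | insert i K _ ih =>
      intro hK
      obtain ⟨β, h1, h2⟩ := ih fun a ha => hK (Finset.mem_insert_of_mem ha)
      refine ⟨β - C.pull T (T.erase i) (C.pull (T.erase i) T β), ?_, fun j hj => ?_⟩
      · rw [map_sub, hf i (hK (Finset.mem_insert_self i K)), sub_zero, h1]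
      · rcases Finset.mem_insert.1 hj with rfl | hj
        · rw [map_sub, C.retract (Finset.erase_subset j T), sub_self]
        · have e1 : C.pull (T.erase j) T (C.pull T (T.erase i) (C.pull (T.erase i) T β)) =
              C.pull (T.erase j) (T.erase j ∩ T.erase i)
                (C.pull (T.erase j ∩ T.erase i) T β) := by
            have e : T.erase j ∩ T ∩ T.erase i = T.erase j ∩ T.erase i := by
              ext a; simp only [Finset.mem_inter, Finset.mem_erase]; tauto
            have e' : T.erase j ∩ T.erase i ∩ T.erase i ∩ T = T.erase j ∩ T.erase i ∩ T := by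
              ext a; simp only [Finset.mem_inter, Finset.mem_erase]; tauto
            rw [C.pull_pull (T.erase j) T (T.erase i), e, C.comp e']
          have e2 : C.pull (T.erase j ∩ T.erase i) T β =
              C.pull (T.erase j ∩ T.erase i) (T.erase j) (C.pull (T.erase j) T β) := by
            rw [C.comp]
            ext a; simp only [Finset.mem_inter, Finset.mem_erase]; tauto
          rw [map_sub, e1, e2, h2 j hj, map_zero, map_zero, sub_zero]
  obtain ⟨β, h1, h2⟩ := key T fun _ h => h
  rw [← h1, hT β h2, map_zero]

end Contravariant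

section BrauerManin

variable (M : BrauerManin.{u, v, w} ι)

theorem BrauerManin.exact_of_subset {S T : Finset ι} (h : T ⊆ S) (hS : M.Exact S) : M.Exact T := by
  intro y hy
  obtain ⟨x, hx⟩ := hS (M.B.map T S y) fun α => by rw [M.pairing.projection, hy]
  exact ⟨M.A.map S T x, by rw [M.Δ.hom_map, hx, M.B.retract h]⟩

theorem BrauerManin.newSurjective_of_exact {T : Finset ι} (h3 : 3 ≤ T.card) (hT : M.Exact T) :
    M.NewSurjective T := by
  intro y hy
  have h0 : ∀ α, M.pairing.val T y α = 0 := by
    intro α
    refine M.Br.dual_new T (M.cube T h3) (M.pairing.right T y) (fun i hi a => ?_) α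
    change M.pairing.val T y (M.Br.pull T (T.erase i) a) = 0
    rw [← M.pairing.projection, hy i hi, M.pairing.zero_left]
  obtain ⟨x, hx⟩ := hT y h0
  obtain ⟨x', h1, h2⟩ := M.A.split T (fun x => M.Δ.hom T x = y) (fun i hi x hx => by
    change M.Δ.hom T (x - M.A.map (T.erase i) T (M.A.map T (T.erase i) x)) = y
    rw [map_sub, hx, M.Δ.hom_map, M.Δ.hom_map, hx, hy i hi, map_zero, sub_zero]) x hx
  exact ⟨x', h2, h1⟩

theorem BrauerManin.exact_of_new {T : Finset ι} (hT : ∀ i ∈ T, M.Exact (T.erase i))
    (hs : M.NewSurjective T) : M.Exact T := by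
  intro y hy
  obtain ⟨y', ⟨h1, x, hx⟩, h2⟩ := M.B.split T
    (fun z => (∀ α, M.pairing.val T z α = 0) ∧ ∃ x : M.A.G T, M.Δ.hom T x = y - z) (by
      rintro i hi z ⟨hz, x, hx⟩
      have h0 : ∀ α, M.pairing.val (T.erase i) (M.B.map T (T.erase i) z) α = 0 := fun α => by
        rw [M.pairing.projection, hz]
      obtain ⟨w, hw⟩ := hT i hi _ h0
      refine ⟨fun α => ?_, x + M.A.map (T.erase i) T w, ?_⟩
      · change M.pairing.val T (z - M.B.map (T.erase i) T (M.B.map T (T.erase i) z)) α = 0
        rw [M.pairing.sub_left, hz, M.pairing.projection, h0, sub_zero]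
      · change M.Δ.hom T (x + M.A.map (T.erase i) T w) =
          y - (z - M.B.map (T.erase i) T (M.B.map T (T.erase i) z))
        rw [map_add, hx, M.Δ.hom_map, hw]
        abel) y ⟨hy, 0, by rw [map_zero, sub_self]⟩
  obtain ⟨x', _, hx'⟩ := hs y' h2
  exact ⟨x + x', by rw [map_add, hx, hx']; abel⟩

end BrauerManin

/-- **Zero-cycles of degree zero on products.** Let `I` be a set of at least two of the indices. The
Brauer-Manin complex of the product `X_I` is exact if and only if it is exact for the products of two of
the varieties and, for all sets `T ⊆ I` of at least three indices, each element of the new part of the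
adelic group of `X_T` comes from the new part of the global group. In particular, if these new parts of
the adelic groups are zero, it is exact for `X_I` if and only if it is exact for the products of two of
the varieties. -/
theorem result (M : BrauerManin.{u, v, w} ι) (I : Finset ι) (hI : 2 ≤ I.card) :
    (M.Exact I ↔ (∀ T ⊆ I, T.card = 2 → M.Exact T) ∧
      ∀ T ⊆ I, 3 ≤ T.card → M.NewSurjective T) ∧
    ((∀ T ⊆ I, 3 ≤ T.card → ∀ y : M.B.G T, M.B.New T y → y = 0) →
      (M.Exact I ↔ ∀ T ⊆ I, T.card = 2 → M.Exact T)) := by
  have main : M.Exact I ↔ (∀ T ⊆ I, T.card = 2 → M.Exact T) ∧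
      ∀ T ⊆ I, 3 ≤ T.card → M.NewSurjective T := by
    constructor
    · intro h
      exact ⟨fun T hT _ => M.exact_of_subset hT h,
        fun T hT h3 => M.newSurjective_of_exact h3 (M.exact_of_subset hT h)⟩
    · rintro ⟨h2, h3⟩
      have key : ∀ n : ℕ, ∀ T ⊆ I, T.card = n → 2 ≤ n → M.Exact T := by
        intro n
        induction n with
        | zero => intro T _ _ h; omega
        | succ n ih =>
          intro T hT hn h
          rcases Nat.lt_or_ge n 2 with hlt | hge
          · exact h2 T hT (by omega)
          · refine M.exact_of_new (fun i hi => ih _ ((Finset.erase_subset i T).trans hT) ?_ hge)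
              (h3 T hT (by omega))
            rw [Finset.card_erase_of_mem hi]; omega
      exact key I.card I (fun _ h => h) rfl hI
  refine ⟨main, fun h0 => ⟨fun h => (main.1 h).1, fun h => main.2 ⟨h, fun T hT h3 y hy => ?_⟩⟩⟩
  refine ⟨0, fun i _ => map_zero _, ?_⟩
  rw [map_zero, h0 T hT h3 y hy]

end Pool.Agent.Results.MP_f80667_ag.ProductsReduceToPairs
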